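import Pool.Agent.NDR.StmtsC

set_option autoImplicit false

namespace Pool.Agent.NDR.H13

open Finset Pool.Agent.Helper30_Simp

theorem cph_cast_inj {σ : Type} :
    Function.Injective (fun (α : σ →₀ ℕ) (i : σ) => ((α i : ℕ) : ℤ)) := by
  intro a b h
  ext i
  have := congrFun h i
  simpa using this

theorem cph_toZ {σ : Type} [Fintype σ] (S : Finset (σ →₀ ℕ)) (l : (σ → ℤ) → ℝ) (i : σ) :
    ∑ a ∈ toZ S, l a * ((a i : ℤ) : ℝ) =
      ∑ α ∈ S, l (fun i => ((α i : ℕ) : ℤ)) * ((α i : ℕ) : ℝ) := by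
  classical
  unfold toZ
  rw [Finset.sum_image fun a _ b _ h => cph_cast_inj h]
  refine Finset.sum_congr rfl fun α _ => ?_
  push_cast
  rfl

theorem cph (hcge : CgeStmt) : CphStmt := by
  classical
  intro σ _ M κ N P p D hD
  obtain ⟨l₀, hl₀, hl₁⟩ := hD.inC
  have hNpos : (0 : ℝ) < N := by exact_mod_cast hD.pos
  -- weights on `lev`
  obtain ⟨lam, hlam⟩ : ∃ lam : (σ →₀ ℕ) → ℝ, lam = fun α => l₀ (fun i => ((α i : ℕ) : ℤ)) := ⟨_, rfl⟩
  have hlam0 : ∀ α, 0 ≤ lam α := fun α => by rw [hlam]; exact hl₀ _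
  have hp : ∀ i ∈ sup κ, p i = ∑ α ∈ lev M κ N, lam α * ((α i : ℕ) : ℝ) := by
    intro i hi
    rw [hl₁ i hi, cph_toZ, hlam]
  -- the total weight
  have hdot : ∀ α ∈ lev M κ N, ∑ i ∈ sup κ, (κ i : ℝ) * ((α i : ℕ) : ℝ) = N := by
    intro α hα
    have h1 : dot κ α = N := by
      unfold lev at hα
      exact (Finset.mem_filter.1 hα).2
    have h2 : ∑ i ∈ sup κ, (κ i : ℝ) * ((α i : ℕ) : ℝ) = ∑ i, (κ i : ℝ) * ((α i : ℕ) : ℝ) := by
      unfold sup
      rw [Finset.sum_filter_of_ne]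
      intro i _ hne h0
      apply hne
      rw [h0]
      simp
    rw [h2, ← h1]
    unfold dot
    push_cast
    rfl
  have hsumsup : ∑ i, (κ i : ℝ) * p i = ∑ i ∈ sup κ, (κ i : ℝ) * p i := by
    unfold sup
    rw [Finset.sum_filter_of_ne]
    intro i _ hne h0
    apply hne
    rw [h0]
    simp
  have hrho : ∑ i, (κ i : ℝ) * p i = N * ∑ α ∈ lev M κ N, lam α := by
    rw [hsumsup]
    have h1 : ∑ i ∈ sup κ, (κ i : ℝ) * p i =
        ∑ i ∈ sup κ, ∑ α ∈ lev M κ N, lam α * ((κ i : ℝ) * ((α i : ℕ) : ℝ)) := by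
      refine Finset.sum_congr rfl fun i hi => ?_
      rw [hp i hi, Finset.mul_sum]
      refine Finset.sum_congr rfl fun α _ => ?_
      ring
    rw [h1, Finset.sum_comm, Finset.mul_sum]
    refine Finset.sum_congr rfl fun α hα => ?_
    rw [← Finset.mul_sum, hdot α hα]
    ring
  obtain ⟨ρ, hρ⟩ : ∃ ρ : ℝ, ρ = ∑ α ∈ lev M κ N, lam α := ⟨_, rfl⟩
  rw [← hρ] at hrho
  have hρdiv : (∑ i, (κ i : ℝ) * p i) / N = ρ := by
    rw [hrho]
    field_simp
  have hρpos : 0 < ρ := by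
    have h1 : 0 < ∑ i, (κ i : ℝ) * p i := by
      obtain ⟨α, hα⟩ := hD.ne
      have h2 : dot κ α = N := by
        unfold lev at hα
        exact (Finset.mem_filter.1 hα).2
      have h3 : ∃ i, κ i ≠ 0 := by
        by_contra hcon
        push Not at hcon
        have h4 : dot κ α = 0 := by
          unfold dot
          refine Finset.sum_eq_zero fun i _ => ?_
          rw [hcon i, zero_mul]
        have := hD.pos
        omega
      obtain ⟨i, hi⟩ := h3
      refine Finset.sum_pos' (fun j _ => ?_) ⟨i, Finset.mem_univ i, ?_⟩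
      · by_cases hj : κ j = 0
        · rw [hj]
          simp
        · have h5 := hD.ge1 j (by unfold sup; exact Finset.mem_filter.2 ⟨Finset.mem_univ j, hj⟩)
          have h6 : (0 : ℝ) ≤ κ j := Nat.cast_nonneg _
          exact mul_nonneg h6 (by linarith)
      · have h5 := hD.ge1 i (by unfold sup; exact Finset.mem_filter.2 ⟨Finset.mem_univ i, hi⟩)
        have h6 : (0 : ℝ) < κ i := by exact_mod_cast Nat.pos_of_ne_zero hi
        exact mul_pos h6 (by linarith)
    rw [hrho] at h1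
    exact (mul_pos_iff_of_pos_left hNpos).1 h1
  refine ⟨ρ / 2, by linarith, fun δ hδ hδ1 => ?_⟩
  have hgap : 0 < ρ - δ := by linarith
  obtain ⟨L₁, hL₁⟩ := exists_nat_ge (((D : ℝ) + ∑ i ∈ sup κ, p i) / (ρ - δ))
  refine ⟨max L₁ (M.sup fun α => ∑ i ∈ sup κ, α i), fun L hL u hu => ?_⟩
  have hL1 : L₁ ≤ L := (le_max_left _ _).trans hL
  have hL2 : (M.sup fun α => ∑ i ∈ sup κ, α i) ≤ L := (le_max_right _ _).trans hL
  have hL3 : (D : ℝ) + ∑ i ∈ sup κ, p i ≤ L * (ρ - δ) := by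
    have h1 : (L₁ : ℝ) ≤ L := by exact_mod_cast hL1
    have h2 := (div_le_iff₀ hgap).1 (hL₁.trans h1)
    exact h2
  have hMp : M ⊆ Mp M (sup κ) L := by
    intro α hα
    unfold Mp
    exact Finset.mem_union_left _ hα
  have hlev : Mp M (sup κ) L ∩ lev M κ N = lev M κ N :=
    Finset.inter_eq_right.2 fun α hα => hMp (Finset.mem_filter.1 (by unfold lev at hα; exact hα)).1
  -- the exponent `u`
  have hnp : Np (Mp M (sup κ) L) (sup κ) (fun i => ((u (some i) : ℤ) : ℝ)) ((u none : ℤ) : ℝ) := by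
    rcases hu with hu | hu
    · rw [hu]
      refine ⟨fun _ => 0, fun _ => le_refl _, fun i _ => ?_, ?_⟩
      · simp
      · simp
    · exact hu.np
  have hinf : ∑ i ∈ sup κ, ((u (some i) : ℤ) : ℝ) ≤ D + L * ((u none : ℤ) : ℝ) := by
    rcases hu with hu | hu
    · rw [hu]
      simp
    · have := hu.inf
      exact_mod_cast this
  obtain ⟨lu, hlu0, hlu1, hlu2⟩ := hnp
  rw [hρdiv]
  refine hcge σ (Mp M (sup κ) L) (sup κ) L (fun i => p i + ((u (some i) : ℤ) : ℝ)) _ ?_ ?_ ?_ ?_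
  · intro i hi
    unfold Mp
    exact Finset.mem_union_right _ (Finset.mem_image.2 ⟨i, hi, rfl⟩)
  · intro α hα
    unfold Mp at hα
    rcases Finset.mem_union.1 hα with h | h
    · exact (Finset.le_sup (f := fun α : σ →₀ ℕ => ∑ i ∈ sup κ, α i) h).trans hL2
    · obtain ⟨i, hi, rfl⟩ := Finset.mem_image.1 h
      rw [Finset.sum_eq_single i]
      · simp
      · intro j _ hj
        rw [Finsupp.single_apply, if_neg fun h => hj h.symm]
      · intro h
        exact absurd hi h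
  · refine ⟨fun α => (if α ∈ lev M κ N then (1 - δ / ρ) * lam α else 0) + lu α, fun α => ?_,
      fun i hi => ?_, ?_⟩
    · refine add_nonneg ?_ (hlu0 α)
      split_ifs
      · refine mul_nonneg ?_ (hlam0 α)
        have : δ / ρ ≤ 1 := by
          rw [div_le_one hρpos]
          linarith
        linarith
      · exact le_refl _
    · have h1 : ∑ α ∈ Mp M (sup κ) L,
          ((if α ∈ lev M κ N then (1 - δ / ρ) * lam α else 0) + lu α) * ((α i : ℕ) : ℝ) =
          (1 - δ / ρ) * p i + ∑ α ∈ Mp M (sup κ) L, lu α * ((α i : ℕ) : ℝ) := by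
        have h2 : ∀ α, ((if α ∈ lev M κ N then (1 - δ / ρ) * lam α else 0) + lu α) * ((α i : ℕ) : ℝ)
            = (if α ∈ lev M κ N then (1 - δ / ρ) * (lam α * ((α i : ℕ) : ℝ)) else 0)
              + lu α * ((α i : ℕ) : ℝ) := by
          intro α
          split_ifs <;> ring
        rw [Finset.sum_congr rfl fun α _ => h2 α, Finset.sum_add_distrib, Finset.sum_ite_mem,
          hlev, ← Finset.mul_sum, hp i hi]
      rw [h1]
      have h3 := hlu1 i hi
      have h4 : 0 ≤ δ / ρ := div_nonneg hδ.le hρpos.le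
      have h5 : 1 ≤ p i := hD.ge1 i hi
      have h6 : (1 - δ / ρ) * p i ≤ p i := by nlinarith
      exact add_le_add h6 h3
    · rw [Finset.sum_add_distrib, Finset.sum_ite_mem,
        hlev, ← Finset.mul_sum, ← hρ, hlu2]
      have h7 : (1 - δ / ρ) * ρ = ρ - δ := by
        field_simp
      rw [h7]
  · rw [Finset.sum_add_distrib]
    have h8 : (L : ℝ) * (ρ - δ + ((u none : ℤ) : ℝ)) = L * (ρ - δ) + L * ((u none : ℤ) : ℝ) := by ring
    rw [h8]
    linarith

end Pool.Agent.NDR.H13
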