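import Pool.Agent.NDR.StmtsG

set_option autoImplicit false

namespace Pool.Agent.NDR.H13

open Finset

theorem fcf_pr {ι : Type} [Fintype ι] (n : ℤ) (u ψ : ι → ℤ) (a : ι → ℤ) :
    pr (fun i => n * u i + ψ i) a = n * pr u a + pr ψ a := by
  unfold pr
  rw [Finset.mul_sum, ← Finset.sum_add_distrib]
  refine Finset.sum_congr rfl fun i _ => ?_
  ring

theorem fcf : FcfStmt := by
  intro ι _ I A F hF
  induction hF with
  | base =>
    refine ⟨fun _ => 0, fun _ _ => rfl, fun a _ => ?_, fun a => ?_⟩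
    · unfold pr
      simp
    · unfold pr
      simp
  | step F ψ _ hψ0 hψ1 ih =>
    obtain ⟨u, hu0, hu1, hu2⟩ := ih
    obtain ⟨n, hn⟩ : ∃ n : ℤ, ∀ a ∈ A, |pr ψ a| < n := by
      refine ⟨1 + ∑ a ∈ A, |pr ψ a|, fun a ha => ?_⟩
      have := Finset.single_le_sum (f := fun a => |pr ψ a|) (fun a _ => abs_nonneg (pr ψ a)) ha
      have h2 : |pr ψ a| ≤ ∑ a ∈ A, |pr ψ a| := this
      linarith
    have key : ∀ a ∈ A, pr u a ≠ 0 → 0 < n * pr u a + pr ψ a := by
      intro a ha h
      have h1 : 1 ≤ pr u a := by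
        have := hu1 a ha
        omega
      have h2 := hn a ha
      have h3 : -n < pr ψ a := (abs_lt.1 h2).1
      have h4 : 0 ≤ n := (abs_nonneg _).trans h2.le
      nlinarith
    refine ⟨fun i => n * u i + ψ i, fun i hi => ?_, fun a ha => ?_, fun a => ?_⟩
    · show n * u i + ψ i = 0
      rw [hu0 i hi, hψ0 i hi]
      simp
    · rw [fcf_pr]
      by_cases h : pr u a = 0
      · rw [h]
        have := hψ1 a ((hu2 a).2 ⟨ha, h⟩)
        simpa using this
      · exact (key a ha h).le
    · rw [fcf_pr, Finset.mem_filter, hu2 a]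
      constructor
      · rintro ⟨⟨ha, h1⟩, h2⟩
        refine ⟨ha, ?_⟩
        rw [h1, h2]
        simp
      · rintro ⟨ha, h1⟩
        have h2 : pr u a = 0 := by
          by_contra h
          have := key a ha h
          omega
        refine ⟨⟨ha, h2⟩, ?_⟩
        rw [h2] at h1
        simpa using h1

end Pool.Agent.NDR.H13
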