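import Pool.Agent.NDR.StmtsG

set_option autoImplicit false

namespace Pool.Agent.NDR.H13

open Finset

section aux

variable {ι K : Type} [Field K]

theorem tor_cut_coeff (Q : Set (ι → ℤ)) [DecidablePred (· ∈ Q)] (h : Lr K ι) (m : ι → ℤ) :
    (cut Q h).coeff m = if m ∈ Q then h.coeff m else 0 := by
  unfold cut
  rw [AddMonoidAlgebra.coeff_ofCoeff, Finsupp.filter_apply]
  by_cases hm : m ∈ Q
  · rw [if_pos hm, if_pos hm]
  · rw [if_neg hm, if_neg hm]

theorem tor_cut_add (Q : Set (ι → ℤ)) (g h : Lr K ι) : cut Q (g + h) = cut Q g + cut Q h := by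
  classical
  apply AddMonoidAlgebra.coeff_injective
  ext m
  rw [AddMonoidAlgebra.coeff_add, Finsupp.add_apply, tor_cut_coeff, tor_cut_coeff, tor_cut_coeff,
    AddMonoidAlgebra.coeff_add, Finsupp.add_apply]
  split_ifs
  · rfl
  · simp

theorem tor_cut_zero (Q : Set (ι → ℤ)) : cut Q (0 : Lr K ι) = 0 := by
  classical
  apply AddMonoidAlgebra.coeff_injective
  ext m
  rw [tor_cut_coeff]
  simp

theorem tor_cut_sum {T : Type} (Q : Set (ι → ℤ)) (S : Finset T) (g : T → Lr K ι) :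
    cut Q (∑ j ∈ S, g j) = ∑ j ∈ S, cut Q (g j) := by
  classical
  induction S using Finset.induction_on with
  | empty => rw [Finset.sum_empty, Finset.sum_empty, tor_cut_zero]
  | insert a S ha ih => rw [Finset.sum_insert ha, Finset.sum_insert ha, tor_cut_add, ih]

theorem tor_cut_eq (Q : Set (ι → ℤ)) (h : Lr K ι) (hh : h ∈ MS K Q) : cut Q h = h := by
  classical
  apply AddMonoidAlgebra.coeff_injective
  ext m
  rw [tor_cut_coeff]
  by_cases hm : m ∈ Q
  · rw [if_pos hm]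
  · rw [if_neg hm]
    by_contra hc
    exact hm (hh m fun h0 => hc h0.symm)

theorem tor_cut_mem (Q : Set (ι → ℤ)) (h : Lr K ι) : cut Q h ∈ MS K Q := by
  classical
  intro m hm
  by_contra hc
  rw [tor_cut_coeff, if_neg hc] at hm
  exact hm rfl

theorem tor_cut_mul_single (G : AddSubgroup (ι → ℤ)) (b : Lr K ι) (m : ι → ℤ) (hm : m ∈ G)
    (r : K) : cut (G : Set (ι → ℤ)) (b * AddMonoidAlgebra.single m r) =
      cut (G : Set (ι → ℤ)) b * AddMonoidAlgebra.single m r := by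
  classical
  apply AddMonoidAlgebra.coeff_injective
  ext n
  rw [tor_cut_coeff, AddMonoidAlgebra.coeff_mul_single_apply,
    AddMonoidAlgebra.coeff_mul_single_apply, tor_cut_coeff]
  have h1 : (n + -m ∈ (G : Set (ι → ℤ))) ↔ (n ∈ (G : Set (ι → ℤ))) := by
    rw [SetLike.mem_coe, SetLike.mem_coe]
    exact G.add_mem_cancel_right (G.neg_mem hm)
  by_cases hn : n ∈ (G : Set (ι → ℤ))
  · rw [if_pos hn, if_pos (h1.2 hn)]
  · rw [if_neg hn, if_neg fun h => hn (h1.1 h), zero_mul]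

theorem tor_cut_mul (G : AddSubgroup (ι → ℤ)) (b g : Lr K ι) (hg : g ∈ MS K (G : Set (ι → ℤ))) :
    cut (G : Set (ι → ℤ)) (b * g) = cut (G : Set (ι → ℤ)) b * g := by
  classical
  have h1 : g = ∑ m ∈ g.coeff.support, AddMonoidAlgebra.single m (g.coeff m) := by
    conv_lhs => rw [← AddMonoidAlgebra.sum_coeff_single g]
    rfl
  have h2 : cut (G : Set (ι → ℤ)) (b * ∑ m ∈ g.coeff.support, AddMonoidAlgebra.single m (g.coeff m))
      = cut (G : Set (ι → ℤ)) b * ∑ m ∈ g.coeff.support, AddMonoidAlgebra.single m (g.coeff m) := by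
    rw [Finset.mul_sum, Finset.mul_sum, tor_cut_sum]
    refine Finset.sum_congr rfl fun m hm => ?_
    exact tor_cut_mul_single G b m (hg m (Finsupp.mem_support_iff.1 hm)) _
  rw [← h1] at h2
  exact h2

theorem tor_tht_coeff (v : ι) (h : Lr K ι) (m : ι → ℤ) :
    (tht v h).coeff m = ((m v : ℤ) : K) * h.coeff m := by
  classical
  unfold tht
  rw [AddMonoidAlgebra.coeff_ofCoeff, Finsupp.sum_apply, Finsupp.sum]
  by_cases hm : m ∈ h.coeff.support
  · rw [Finset.sum_eq_single m]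
    · rw [Finsupp.single_eq_same]
    · intro n _ hn
      rw [Finsupp.single_apply, if_neg hn]
    · intro h0
      exact absurd hm h0
  · rw [Finset.sum_eq_zero, Finsupp.notMem_support_iff.1 hm, mul_zero]
    intro n hn
    rw [Finsupp.single_apply, if_neg]
    intro h0
    rw [h0] at hn
    exact hm hn

theorem tor_tht_mem (Q : Set (ι → ℤ)) (v : ι) (h : Lr K ι) (hh : h ∈ MS K Q) :
    tht v h ∈ MS K Q := by
  intro m hm
  apply hh m
  intro h0
  apply hm
  rw [tor_tht_coeff, h0, mul_zero]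

theorem tor_mul_mem (P Q R : Set (ι → ℤ)) (hPQ : ∀ m ∈ P, ∀ e ∈ Q, m + e ∈ R) (g h : Lr K ι)
    (hg : g ∈ MS K P) (hh : h ∈ MS K Q) : g * h ∈ MS K R := by
  classical
  intro m hm
  have h1 := AddMonoidAlgebra.support_coeff_mul_subset g h (Finsupp.mem_support_iff.2 hm)
  obtain ⟨p, hp, e, he, rfl⟩ := Finset.mem_add.1 h1
  exact hPQ p (hg p (Finsupp.mem_support_iff.1 hp)) e (hh e (Finsupp.mem_support_iff.1 he))

/-- the exponents in the span of `A` -/
def torG (I D : Finset ι) (A : Finset (ι → ℤ)) : AddSubgroup (ι → ℤ) where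
  carrier := {e | InS I A (fun i => ((e i : ℤ) : ℝ)) ∧ e ∈ dd D}
  zero_mem' := by
    refine ⟨⟨fun _ => 0, fun i _ => ?_⟩, fun j _ => rfl⟩
    simp
  add_mem' := by
    rintro a b ⟨⟨l, hl⟩, ha⟩ ⟨⟨l', hl'⟩, hb⟩
    refine ⟨⟨fun x => l x + l' x, fun i hi => ?_⟩, fun j hj => ?_⟩
    · have h1 := hl i hi
      have h2 := hl' i hi
      simp only at h1 h2
      show (((a + b) i : ℤ) : ℝ) = ∑ x ∈ A, (l x + l' x) * ((x i : ℤ) : ℝ)
      rw [Pi.add_apply, Int.cast_add, h1, h2, ← Finset.sum_add_distrib]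
      refine Finset.sum_congr rfl fun x _ => ?_
      ring
    · rw [Pi.add_apply, ha j hj, hb j hj]
      rfl
  neg_mem' := by
    rintro a ⟨⟨l, hl⟩, ha⟩
    refine ⟨⟨fun x => - l x, fun i hi => ?_⟩, fun j hj => ?_⟩
    · have h1 := hl i hi
      simp only at h1
      show (((-a) i : ℤ) : ℝ) = ∑ x ∈ A, (- l x) * ((x i : ℤ) : ℝ)
      rw [Pi.neg_apply, Int.cast_neg, h1, ← Finset.sum_neg_distrib]
      refine Finset.sum_congr rfl fun x _ => ?_
      ring
    · rw [Pi.neg_apply, ha j hj]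
      rfl

theorem tor_ov_sub (I D : Finset ι) (A : Finset (ι → ℤ)) (m : ι → ℤ) (hm : m ∈ ov I A ∩ dd D) :
    m ∈ torG I D A := by
  classical
  obtain ⟨⟨a, ha, hma⟩, hd⟩ := hm
  refine ⟨⟨fun x => if x = a then 1 else 0, fun i hi => ?_⟩, hd⟩
  rw [Finset.sum_eq_single a]
  · show ((m i : ℤ) : ℝ) = (if a = a then (1 : ℝ) else 0) * ((a i : ℤ) : ℝ)
    rw [if_pos rfl, one_mul, hma i hi]
  · intro b _ hb
    show (if b = a then (1 : ℝ) else 0) * ((b i : ℤ) : ℝ) = 0
    rw [if_neg hb, zero_mul]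
  · intro h
    exact absurd ha h

theorem tor_add (I D : Finset ι) (A : Finset (ι → ℤ)) (v : ι → ℝ) :
    ∀ m ∈ (torG I D A : Set (ι → ℤ)), ∀ e ∈ TG I D A v, m + e ∈ TG I D A v := by
  rintro m ⟨⟨l, hl⟩, hm⟩ e ⟨⟨l', hl'⟩, he⟩
  refine ⟨⟨fun x => l x + l' x, fun i hi => ?_⟩, fun j hj => ?_⟩
  · have h1 := hl i hi
    have h2 := hl' i hi
    simp only at h1
    unfold shv at h2
    show (((m + e) i : ℤ) : ℝ) + v i = ∑ x ∈ A, (l x + l' x) * ((x i : ℤ) : ℝ)
    rw [Pi.add_apply, Int.cast_add]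
    have h3 : ∑ a ∈ A, (l a + l' a) * ((a i : ℤ) : ℝ) =
        ∑ a ∈ A, l a * ((a i : ℤ) : ℝ) + ∑ a ∈ A, l' a * ((a i : ℤ) : ℝ) := by
      rw [← Finset.sum_add_distrib]
      refine Finset.sum_congr rfl fun x _ => ?_
      ring
    rw [h3, ← h1, ← h2]
    ring
  · rw [Pi.add_apply, hm j hj, he j hj]
    rfl

end aux

theorem tor (hkun : KunStmt) : TorStmt := by
  classical
  intro ι _ K _ _ I D A f s η hf hη hU v T hT i
  obtain ⟨hTI, hcoord, -⟩ := hT
  obtain ⟨b, b', hb⟩ := hU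
  have hf1 : f ∈ MS K (ov I A) := fun m hm => (hf m hm).1
  have hη1 : ∀ k, η k ∈ MS K (ov I A) := fun k m hm => (hη k m hm).1
  have hfG : f ∈ MS K (torG I D A : Set (ι → ℤ)) := fun m hm => tor_ov_sub I D A m (hf m hm)
  have hηG : ∀ k, η k ∈ MS K (torG I D A : Set (ι → ℤ)) :=
    fun k m hm => tor_ov_sub I D A m (hη k m hm)
  rw [tor_cut_eq _ f hf1] at hb
  have hb2 : ∑ k ∈ Finset.range s, b' k * cut (ov I A) (η k) = ∑ k ∈ Finset.range s, b' k * η k :=
    Finset.sum_congr rfl fun k _ => by rw [tor_cut_eq _ (η k) (hη1 k)]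
  rw [hb2] at hb
  -- the coefficients
  have hex : ∀ i : ι, ∃ c : ι → ℚ, i ∈ I → ∀ a ∈ A, (a i : ℚ) = ∑ j ∈ T, c j * (a j : ℚ) := by
    intro i
    by_cases hi : i ∈ I
    · obtain ⟨c, hc⟩ := hcoord i hi
      exact ⟨c, fun _ => hc⟩
    · exact ⟨fun _ => 0, fun h => absurd h hi⟩
  choose c hc using hex
  have htht : ∀ i ∈ I, tht i f = ∑ j ∈ T, ((c i j : ℚ) : K) • tht j f := by
    intro i hi
    apply AddMonoidAlgebra.coeff_injective
    ext m
    rw [AddMonoidAlgebra.coeff_sum, Finsupp.finsetSum_apply, tor_tht_coeff]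
    have h1 : ∀ j ∈ T, (((c i j : ℚ) : K) • tht j f).coeff m =
        ((c i j : ℚ) : K) * ((m j : ℤ) : K) * f.coeff m := by
      intro j _
      rw [AddMonoidAlgebra.coeff_smul_apply, tor_tht_coeff, smul_eq_mul]
      ring
    rw [Finset.sum_congr rfl h1, ← Finset.sum_mul]
    by_cases h0 : f.coeff m = 0
    · rw [h0, mul_zero, mul_zero]
    · obtain ⟨a, ha, hma⟩ := hf1 m h0
      congr 1
      have h2 : ((m i : ℤ) : ℚ) = ∑ j ∈ T, c i j * ((m j : ℤ) : ℚ) := by
        rw [hma i hi, hc i hi a ha]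
        refine Finset.sum_congr rfl fun j hj => ?_
        rw [hma j (hTI hj)]
      have h3 : (((m i : ℤ) : ℚ) : K) = ((∑ j ∈ T, c i j * ((m j : ℤ) : ℚ) : ℚ) : K) := by rw [h2]
      push_cast at h3
      exact h3
  obtain ⟨B, hB⟩ : ∃ B : ι → Lr K ι, B = fun j => ∑ i ∈ I, ((c i j : ℚ) : K) • b i := ⟨_, rfl⟩
  have hsum : ∑ j ∈ T, B j * tht j f = ∑ i ∈ I, b i * tht i f := by
    have h1 : ∀ i ∈ I, b i * tht i f = ∑ j ∈ T, (((c i j : ℚ) : K) • b i) * tht j f := by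
      intro i hi
      rw [htht i hi, Finset.mul_sum]
      refine Finset.sum_congr rfl fun j _ => ?_
      rw [mul_smul_comm, smul_mul_assoc]
    rw [Finset.sum_congr rfl h1, Finset.sum_comm, hB]
    refine Finset.sum_congr rfl fun j _ => ?_
    rw [Finset.sum_mul]
  rw [← hsum] at hb
  -- cut to the subgroup
  have hone : cut (torG I D A : Set (ι → ℤ)) (1 : Lr K ι) = 1 := by
    apply tor_cut_eq
    intro m hm
    have h0 : m = 0 := by
      by_contra h
      apply hm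
      rw [AddMonoidAlgebra.one_def, AddMonoidAlgebra.coeff_single, Finsupp.single_apply,
        if_neg fun h' => h h'.symm]
    rw [h0]
    exact (torG I D A).zero_mem
  have hcut := congrArg (cut (torG I D A : Set (ι → ℤ))) hb
  rw [hone, tor_cut_add, tor_cut_sum, tor_cut_sum] at hcut
  have h1 : ∀ j ∈ T, cut (torG I D A : Set (ι → ℤ)) (B j * tht j f) =
      cut (torG I D A : Set (ι → ℤ)) (B j) * tht j f :=
    fun j _ => tor_cut_mul _ _ _ (tor_tht_mem _ j f hfG)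
  have h2 : ∀ k ∈ Finset.range s, cut (torG I D A : Set (ι → ℤ)) (b' k * η k) =
      cut (torG I D A : Set (ι → ℤ)) (b' k) * η k :=
    fun k _ => tor_cut_mul _ _ _ (hηG k)
  rw [Finset.sum_congr rfl h1, Finset.sum_congr rfl h2] at hcut
  refine hkun (ι ⊕ ℕ) (Lr K ι) (opg f η)
    (Sum.elim (fun j => cut (torG I D A : Set (ι → ℤ)) (B j))
      (fun k => cut (torG I D A : Set (ι → ℤ)) (b' k))) (ix T s) (MS K (TG I D A v)) ?_ ?_ ?_ i
  · rintro (j | k) _ r hr
    · exact tor_mul_mem _ _ _ (tor_add I D A v) _ _ (tor_tht_mem _ j f hfG) hr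
    · exact tor_mul_mem _ _ _ (tor_add I D A v) _ _ (hηG k) hr
  · rintro (j | k) _ r hr
    · exact tor_mul_mem _ _ _ (tor_add I D A v) _ _ (tor_cut_mem _ _) hr
    · exact tor_mul_mem _ _ _ (tor_add I D A v) _ _ (tor_cut_mem _ _) hr
  · unfold ix
    rw [Finset.sum_disjSum]
    exact hcut

end Pool.Agent.NDR.H13
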